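import Pool.Agent.Polluted.Seq

set_option autoImplicit false

/-!
# The critical exponent of polluted bootstrap percolation for `d = r`
-/

namespace Pool.Agent.Results.MP_faaa3e_pr.FullAnswer

open Pool.Agent.Polluted Filter Topology

/-- For `d = r ≥ 2` and `α ∈ [0, ∞]`: `φ → 1` at `α` exactly when `α > d`, and `φ → 0` at `α`
exactly when `α < d`. -/
theorem result (d : ℕ) (hd : 2 ≤ d) (α : EReal) (hα : 0 ≤ α) :
    (TendsAt d d α 1 ↔ (d : EReal) < α) ∧ (TendsAt d d α 0 ↔ α < (d : EReal)) := by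
  have hd0 : (0 : ℝ) < d := by
    have : 0 < d := by omega
    exact_mod_cast this
  have hP : ∀ n : ℕ, 0 < Real.exp (-((n : ℝ) + 1) ^ 2) := fun n => Real.exp_pos _
  have hcast : ((d : ℝ) : EReal) = (d : EReal) := by norm_cast
  refine ⟨⟨fun h => ?_, tendsAt_one (by omega)⟩, ⟨fun h => ?_, tendsAt_zero hd⟩⟩
  · -- `φ → 1` at `α` forces `α > d`
    by_contra hcon
    push Not at hcon
    rcases hcon.lt_or_eq with hlt | heq
    · obtain ⟨a, rfl⟩ : ∃ a : ℝ, (a : EReal) = α := by
        refine ⟨α.toReal, EReal.coe_toReal ?_ ?_⟩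
        · rintro rfl
          exact absurd hlt (not_lt.mpr le_top)
        · rintro rfl
          exact absurd hα (not_le.mpr (EReal.bot_lt_zero))
      have ha : 0 ≤ a := by exact_mod_cast hα
      obtain ⟨e1, e2, e3⟩ := explicit_seq a 1 (Or.inl ⟨ha, rfl⟩)
      have t1 := h _ _ hP (fun n => Real.exp_pos _) e1 e2 e3
      have t0 := tendsAt_zero hd hlt _ _ hP (fun n => Real.exp_pos _) e1 e2 e3
      exact absurd (tendsto_nhds_unique t1 t0) one_ne_zero
    · obtain ⟨e1, e2, e3⟩ := explicit_seq (d : ℝ) (-1) (Or.inr ⟨hd0, rfl⟩)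
      rw [hcast, ← heq] at e3
      have t1 := h _ _ hP (fun n => Real.exp_pos _) e1 e2 e3
      have t0 : Tendsto (fun n : ℕ => phi d d (Real.exp (-((n : ℝ) + 1) ^ 2))
          (Real.exp (-((d : ℝ) * ((n : ℝ) + 1) ^ 2 + (-1) * ((n : ℝ) + 1))))) atTop (𝓝 0) := by
        refine seq_lower hd hP (fun n => Real.exp_pos _) e1 e2 ?_
        have h1 : Tendsto (fun n : ℕ => Real.exp (-((n : ℝ) + 1))) atTop (𝓝 0) :=
          Real.tendsto_exp_neg_atTop_nhds_zero.comp tendsto_succ_atTop
        refine h1.congr (fun n => ?_)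
        rw [← Real.exp_nat_mul, ← Real.exp_sub]
        congr 1
        ring
      exact absurd (tendsto_nhds_unique t1 t0) one_ne_zero
  · -- `φ → 0` at `α` forces `α < d`
    by_contra hcon
    push Not at hcon
    rcases hcon.lt_or_eq with hlt | heq
    · by_cases htop : α = ⊤
      · subst htop
        have e1 : Tendsto (fun n : ℕ => Real.exp (-((n : ℝ) + 1))) atTop (𝓝 0) :=
          Real.tendsto_exp_neg_atTop_nhds_zero.comp tendsto_succ_atTop
        have e2 : Tendsto (fun n : ℕ => Real.exp (-((n : ℝ) + 1) ^ 2)) atTop (𝓝 0) :=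
          (explicit_seq 0 1 (Or.inl ⟨le_rfl, rfl⟩)).1
        have e3 : Tendsto (fun n : ℕ => ((Real.log (Real.exp (-((n : ℝ) + 1) ^ 2)) /
            Real.log (Real.exp (-((n : ℝ) + 1))) : ℝ) : EReal)) atTop (𝓝 ⊤) := by
          rw [EReal.tendsto_coe_nhds_top_iff]
          refine tendsto_succ_atTop.congr (fun n => ?_)
          rw [Real.log_exp, Real.log_exp]
          have : (n : ℝ) + 1 ≠ 0 := by positivity
          field_simp
        have t0 := h _ _ (fun n => Real.exp_pos _) (fun n => Real.exp_pos _) e1 e2 e3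
        have t1 := tendsAt_one (by omega) hlt _ _ (fun n => Real.exp_pos _)
          (fun n => Real.exp_pos _) e1 e2 e3
        exact absurd (tendsto_nhds_unique t1 t0) one_ne_zero
      · obtain ⟨a, rfl⟩ : ∃ a : ℝ, (a : EReal) = α := by
          refine ⟨α.toReal, EReal.coe_toReal htop ?_⟩
          rintro rfl
          exact absurd hα (not_le.mpr (EReal.bot_lt_zero))
        have ha : 0 ≤ a := by exact_mod_cast hα
        obtain ⟨e1, e2, e3⟩ := explicit_seq a 1 (Or.inl ⟨ha, rfl⟩)
        have t0 := h _ _ hP (fun n => Real.exp_pos _) e1 e2 e3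
        have t1 := tendsAt_one (by omega) hlt _ _ hP (fun n => Real.exp_pos _) e1 e2 e3
        exact absurd (tendsto_nhds_unique t1 t0) one_ne_zero
    · obtain ⟨e1, e2, e3⟩ := explicit_seq (d : ℝ) 1 (Or.inl ⟨hd0.le, rfl⟩)
      rw [hcast, heq] at e3
      have t0 := h _ _ hP (fun n => Real.exp_pos _) e1 e2 e3
      have t1 : Tendsto (fun n : ℕ => phi d d (Real.exp (-((n : ℝ) + 1) ^ 2))
          (Real.exp (-((d : ℝ) * ((n : ℝ) + 1) ^ 2 + 1 * ((n : ℝ) + 1))))) atTop (𝓝 1) := by
        refine seq_upper (by omega) hP (fun n => Real.exp_pos _) e1 e2 ?_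
        have h1 : Tendsto (fun n : ℕ => ((n : ℝ) + 1) ^ (2 * d) * Real.exp (-((n : ℝ) + 1)))
            atTop (𝓝 0) :=
          (Real.tendsto_pow_mul_exp_neg_atTop_nhds_zero (2 * d)).comp tendsto_succ_atTop
        refine h1.congr (fun n => ?_)
        rw [one_div, Real.log_inv, Real.log_exp, div_pow, ← Real.exp_nat_mul, neg_neg, ← pow_mul]
        rw [mul_div_assoc', mul_comm (Real.exp _) _, mul_div_assoc, ← Real.exp_sub]
        congr 2
        ring
      exact absurd (tendsto_nhds_unique t1 t0) one_ne_zero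

end Pool.Agent.Results.MP_faaa3e_pr.FullAnswer
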