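import Pool.Agent.Polluted.Greater

set_option autoImplicit false

/-!
# Polluted bootstrap percolation with `d > r`: convergence of the final density to `1`
-/

namespace Pool.Agent.Results.MP_faaa3e_pr.NoExceptionalPair

open Pool.Agent.Polluted

/-- For all `d > r` the final density is at least `1 - 2 * 24 ^ d * q`, uniformly in `p > 0`, as
soon as `q ≤ 1 / (2 * 24 ^ (2 d))`. -/
theorem result (d r : ℕ) (hr : r < d) (p q : ℝ) (hp : 0 < p) (hq : 0 ≤ q) (hpq : p + q ≤ 1)
    (hq' : (24 ^ d) ^ 2 * q ≤ 1 / 2) : 1 - 2 * 24 ^ d * q ≤ phi d r p q :=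
  phi_ge_of_lt hr hp hq hpq hq'

end Pool.Agent.Results.MP_faaa3e_pr.NoExceptionalPair
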